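import Pool.Agent.Lib.MP_be93de_nt.Rk6
import Pool.Agent.Lib.MP_68a45e_nt.AvMain

namespace Pool.Agent.Results.MP_be93de_nt.AlmostAllShifts

open Filter

theorem result (n : ℕ) (hn : 1 ≤ n) : ∃ C : ℕ, ∀ θ : ℝ, 1 / 9 < θ → ∀ δ : ℝ, 0 < δ →
    ∀ᶠ X : ℕ in atTop, ∀ H b : ℕ, (X : ℝ) ^ θ ≤ H → b + H ≤ X →
      (Set.ncard {h : ℕ | b < h ∧ h ≤ b + H ∧ Even h ∧
        (Set.ncard {k : ℕ | 1 ≤ k ∧ Nat.nth Nat.Prime (k * n - 1) ≤ X ∧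
          (Nat.nth Nat.Prime (k * n - 1) + h).Prime} : ℝ) < X / Real.log X ^ C} : ℝ) ≤ δ * H := by
  obtain ⟨C, hC⟩ := Lib.MP_be93de_nt.Rk.final (fun _ h => Lib.MP_68a45e_nt.Av.unif_final h) hn
  refine ⟨C, fun θ hθ δ hδ => (hC θ hθ δ hδ).mono fun X hX H b h1 h2 =>
    le_trans ?_ (hX H b h1 h2)⟩
  rw [← Set.ncard_coe_finset, Nat.cast_le]
  refine Set.ncard_le_ncard (fun h hh => ?_) (Finset.finite_toSet _)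
  exact Finset.mem_coe.2 (Finset.mem_filter.2 ⟨Finset.mem_Ioc.2 ⟨hh.1, hh.2.1⟩, hh.2.2.1,
    lt_of_le_of_lt (Nat.cast_le.2 (Lib.MP_be93de_nt.Rk.card_rank hn X h)) hh.2.2.2⟩)

end Pool.Agent.Results.MP_be93de_nt.AlmostAllShifts
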