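import Mathlib
import Pool.Agent.Lib.MP_be93de_nt.RtMain

namespace Pool.Agent.Results.MP_be93de_nt.RandomSieve

open Pool.Agent.Lib.MP_b09185_nt

theorem result : ∀ᵐ c ∂law, ∀ d : ℕ, 1 ≤ d → ∀ ε : ℝ, 0 < ε → ∀ᶠ N : ℕ in Filter.atTop,
    ∀ t : ℝ, 0 ≤ t →
    (({n ∈ Set.Ioc N (2 * N) | ∀ k : ℕ, 1 ≤ k → (k : ℝ) ≤ t →
        Nat.nth (· ∈ model c) (k ^ d * n - 1) + 2 ∉ model c}.ncard : ℝ) ≤
      N * Real.exp (-((2 * (∏' p : {p : ℕ // p.Prime ∧ 2 < p}, (1 - 1 / ((p : ℝ) - 1) ^ 2)) - ε) *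
        t / Real.log N) + ε)) ∧
    ((2 * (∏' p : {p : ℕ // p.Prime ∧ 2 < p}, (1 - 1 / ((p : ℝ) - 1) ^ 2)) + ε) * t ≤
        Real.log N ^ 2 →
      N * Real.exp (-((2 * (∏' p : {p : ℕ // p.Prime ∧ 2 < p}, (1 - 1 / ((p : ℝ) - 1) ^ 2)) + ε) *
        t / Real.log N) - ε) ≤
      ({n ∈ Set.Ioc N (2 * N) | ∀ k : ℕ, 1 ≤ k → (k : ℝ) ≤ t →
        Nat.nth (· ∈ model c) (k ^ d * n - 1) + 2 ∉ model c}.ncard : ℝ)) :=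
  Pool.Agent.Lib.MP_be93de_nt.tail_law

end Pool.Agent.Results.MP_be93de_nt.RandomSieve
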