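import Pool.Agent.Lib.MP_be93de_nt.Pa8
import Pool.Agent.Lib.MP_be93de_nt.RCount

namespace Pool.Agent.Results.MP_be93de_nt.ShiftDensity

open Filter

theorem result (n : ℕ) (hn : 1 ≤ n) : ∀ᶠ x : ℕ in atTop, (x : ℝ) / 13 ≤
    Set.ncard {h : ℕ | 1 ≤ h ∧ h ≤ x ∧
      Set.Infinite {k : ℕ | 1 ≤ k ∧ (Nat.nth Nat.Prime (k * n - 1) + h).Prime}} := by
  refine (Lib.MP_be93de_nt.RCount.dens _ (Lib.MP_be93de_nt.Pa.partsR hn)).mono fun x hx => ?_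
  convert hx using 3
  ext h
  simp only [Set.mem_setOf_eq]
  tauto

end Pool.Agent.Results.MP_be93de_nt.ShiftDensity
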