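import Pool.Agent.Lib.MP_be93de_nt.He.Main

namespace Pool.Agent.Results.MP_be93de_nt.StrongBarrier

open Classical in
theorem result (δ : ℝ) (hδ : 0 < δ) (B : ℕ) (hB : 1 ≤ B) :
    ∃ (ε : ℝ) (A : Set ℕ) (C : ℝ), 0 < ε ∧ A.Infinite ∧
    (∀ (x : ℝ) (Ψ : Finset (ℤ × ℤ)) (u v : ℕ), 2 ≤ x → u ≤ v →
      (∀ ψ ∈ Ψ, ψ.1 ≠ 0 ∧ Int.gcd ψ.1 ψ.2 = 1 ∧ ((|ψ.1| : ℤ) : ℝ) ≤ x ∧ ((|ψ.2| : ℤ) : ℝ) ≤ x) →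
      (∀ ψ ∈ Ψ, ∀ φ ∈ Ψ, ψ ≠ φ → ψ.1 * φ.2 ≠ φ.1 * ψ.2) →
      (∀ m ∈ Finset.Ico u v, ∀ ψ ∈ Ψ, Real.sqrt x ≤ ((ψ.1 * m + ψ.2 : ℤ) : ℝ) ∧
        ((ψ.1 * m + ψ.2 : ℤ) : ℝ) ≤ x) →
      ∀ E : ℝ, ((Ψ.card ≤ B ∧ E = 1 / Real.log x ^ (B + 1)) ∨
        ((Ψ.card : ℝ) ≤ Real.log x ^ (1 / 13 : ℝ) ∧ E = x ^ (-ε) ∧ ∃ q : ℤ, 1 ≤ q ∧
          (q : ℝ) ≤ Real.log x ^ 2 ∧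
          ∀ ψ ∈ Ψ, ψ.1 = q ∧ ∀ φ ∈ Ψ, ((ψ.2 - φ.2 : ℤ) : ℝ) ≤ Real.log x ^ 2)) →
      ∃ S : ℝ, Filter.Tendsto (fun N : ℕ => ∏ p ∈ (Finset.range N).filter Nat.Prime,
          (1 - (((Finset.range p).filter
            (fun m : ℕ => ∃ ψ ∈ Ψ, (p : ℤ) ∣ ψ.1 * m + ψ.2)).card : ℝ) / p) /
            (1 - 1 / (p : ℝ)) ^ Ψ.card) Filter.atTop (nhds S) ∧
        |(((Finset.Ico u v).filter (fun m : ℕ => ∀ ψ ∈ Ψ, (ψ.1 * m + ψ.2).toNat ∈ A)).card : ℝ) -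
            S * ∑ m ∈ Finset.Ico u v, ∏ ψ ∈ Ψ, 1 / Real.log ((ψ.1 * m + ψ.2 : ℤ) : ℝ)| ≤
          C * (((v : ℝ) - u) * E + x ^ (1 / (B : ℝ)))) ∧
    ∀ᶠ N : ℕ in Filter.atTop, ({n : ℕ | 1 ≤ n ∧ n ≤ N ∧ ∃ k : ℕ, 1 ≤ k ∧ k ≤ n ^ 2 ∧
      Nat.nth (· ∈ A) (k * n - 1) + 2 ∈ A}.ncard : ℝ) ≤ δ * N := by
  obtain ⟨ε, A, C, h0, h1, h2, h3, h4⟩ := Pool.Agent.Lib.MP_be93de_nt.He.main' δ hδ B hB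
  refine ⟨ε, A, C, h0, h1, fun x Ψ u v a b c d e E hE => ?_, h4⟩
  have key : ∃ S, Pool.Agent.Lib.MP_be93de_nt.Hc.IsSF Ψ S ∧
      Pool.Agent.Lib.MP_be93de_nt.He.Dev A Ψ S u v ≤ C * (((v : ℝ) - u) * E + x ^ (1 / (B : ℝ))) := by
    rcases hE with ⟨k, rfl⟩ | ⟨k, rfl, q, q1, q2, q3⟩
    · rw [mul_one_div]
      exact h3 x Ψ u v ⟨a, b, c, d, e⟩ k
    · exact h2 x Ψ u v q ⟨a, b, c, d, e⟩ k q1 q2 q3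
  obtain ⟨S, hS, h⟩ := key
  refine ⟨S, ?_, by convert h; unfold Pool.Agent.Lib.MP_be93de_nt.He.Dev; congr!⟩
  convert hS using 1
  unfold Pool.Agent.Lib.MP_be93de_nt.Hc.IsSF Pool.Agent.Lib.MP_be93de_nt.Hc.nuF
  congr!

end Pool.Agent.Results.MP_be93de_nt.StrongBarrier
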